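import Pool.Agent.Q161.FlipUniq

/-!
# MP_8f97c4_co: the flip complex of double wiring diagrams is simply connected

The definitions are in `Pool.Agent.Q161.FlipSys` (`Letter`, `part`, `IsRedLongest`, `IsDWD`),
`Pool.Agent.Q161.FlipGraph` (`Comm`, `CommStep`, `Cox`, `Mix`, `DWord`, `Vert`, `CoxAdj`, `MixAdj`,
`flipGraph`, `IsCell`, `proj`), `Pool.Agent.Q161.FlipHtpy` (`Htpy`) and
`Pool.Agent.Q161.FlipUniq` (`FlipAt`).

* A letter is a pair (index, colour); the index `i` stands for the problem's `i + 1`.
* `IsDWD n w`: for both colours, the letters of that colour form a word of length `n(n-1)/2` in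
  `0, …, n - 2` whose product of adjacent transpositions is the longest permutation.
* `Vert n`: these words up to commutations; `flipGraph n`: two classes are adjacent if
  representatives are related by a Coxeter move of one colour or by a mixed move.
* `IsCell n`: the cycles of length `4`, of length `5`, and the cycles of length `8` all of whose
  edges are Coxeter moves of one and the same colour.
* `Htpy`: homotopy of walks in the complex with these 2-cells.
-/

namespace Pool.Agent.Results.MP_8f97c4_co.SimplyConnected

open SimpleGraph Pool.Agent.Q161.Flip

/-- For every `n`: the flip graph `G_n` is connected, every closed walk in it is null-homotopic in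
the complex `X_n`, and the graph has exactly one edge for each flip: adjacency means that some
representatives are related by a flip, and the flip between two classes is unique (its two letters,
its direction and its place are determined by the two classes). -/
theorem result (n : ℕ) :
    (flipGraph n).Connected ∧
    (∀ (v : Vert n) (p : (flipGraph n).Walk v v),
      Htpy (flipGraph n) (IsCell n) p Walk.nil) ∧
    (∀ A B : Vert n, (flipGraph n).Adj A B ↔
      ∃ u v : DWord n, cls u = A ∧ cls v = B ∧ ∃ a b x, FlipAt a b x u.1 v.1) ∧
    (∀ (u v u' v' : DWord n) (a b a' b' : Letter) (x x' : List Letter),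
      FlipAt a b x u.1 v.1 → FlipAt a' b' x' u'.1 v'.1 → cls u = cls u' → cls v = cls v' →
      a = a' ∧ b = b' ∧ proj a b x = proj a b x') :=
  ⟨(flip_simply_connected n).1, (flip_simply_connected n).2, fun _ _ => adj_iff_flipAt,
    fun _ _ _ _ _ _ _ _ _ _ h h' => flip_unique h h'⟩

end Pool.Agent.Results.MP_8f97c4_co.SimplyConnected
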